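import Pool.Agent.H141R2.NPI

/-!
# The base block
-/

namespace NearPoly

open KLev Finset Filter Topology

lemma ev_ge (c : ℝ) : ∀ᶠ H : ℕ in atTop, c ≤ (H:ℝ) :=
  tendsto_natCast_atTop_atTop.eventually (eventually_ge_atTop c)

lemma ev_mul {x : ℝ} (hx : 0 < x) : ∀ᶠ H : ℕ in atTop, (1:ℝ) ≤ H * x := by
  filter_upwards [ev_ge (1 / x)] with H h
  rwa [div_le_iff₀ hx] at h

/-- finitely many nondegenerate events: all data between `1/H` and `H` -/
theorem inn_of_finite {A R : Type} [Fintype A] [Finite R] {k P : ℕ} (S : Ev A R k P)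
    (σ : A → ℕ) (hσ : ∀ α, S.s α = σ α) : ∃ H, Inn S σ H := by
  have h1 : ∀ᶠ H : ℕ in atTop, ∀ α, σ α ≤ H := by
    rw [eventually_all]; intro α; exact eventually_ge_atTop (σ α)
  have h2 : ∀ᶠ H : ℕ in atTop, ∀ r, |S.X r| ≤ (H:ℝ) := by
    rw [eventually_all]; intro r; exact ev_ge _
  have h3 : ∀ᶠ H : ℕ in atTop, ∀ r, |S.Y r| ≤ (H:ℝ) := by
    rw [eventually_all]; intro r; exact ev_ge _
  have h4 : ∀ᶠ H : ℕ in atTop, ∀ α, |S.t α| ≤ (H:ℝ) := by
    rw [eventually_all]; intro r; exact ev_ge _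
  have h5 : ∀ᶠ H : ℕ in atTop, ∀ r α, |Fv S α r| ≤ (H:ℝ) := by
    rw [eventually_all]; intro r
    rw [eventually_all]; intro α; exact ev_ge _
  have h6 : ∀ᶠ H : ℕ in atTop, ∀ r α, α ≠ S.a r → α ≠ S.b r → (1:ℝ) ≤ H * |Fv S α r| := by
    rw [eventually_all]; intro r
    rw [eventually_all]; intro α
    by_cases h : α ≠ S.a r ∧ α ≠ S.b r
    · have hF : 0 < |Fv S α r| := by
        rw [abs_pos]; unfold Fv Ev.Y; exact sub_ne_zero.mpr (S.hne r α h.1 h.2)
      filter_upwards [ev_mul hF] with H hH _ _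
      exact hH
    · exact Filter.Eventually.of_forall (fun _ ha hb => absurd ⟨ha, hb⟩ h)
  have h7 : ∀ᶠ H : ℕ in atTop, ∀ r r', r ≠ r' → (1:ℝ) ≤ H * |S.X r - S.X r'| := by
    rw [eventually_all]; intro r
    rw [eventually_all]; intro r'
    by_cases h : r = r'
    · exact Filter.Eventually.of_forall (fun _ h' => absurd h h')
    · have hX : 0 < |S.X r - S.X r'| := by
        rw [abs_pos, sub_ne_zero]; exact fun h' => h (S.hX h')
      filter_upwards [ev_mul hX] with H hH _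
      exact hH
  obtain ⟨H, a1, a2, a3, a4, a5, a6, a7, a8⟩ := (h1.and (h2.and (h3.and (h4.and (h5.and
    (h6.and (h7.and (eventually_ge_atTop 1)))))))).exists
  exact ⟨H, a8, hσ, a1, a2, a3, a4, a5, a6, a7⟩

theorem HasI.base : ∃ H₀, HasI 24 4 H₀ β₀ := by
  obtain ⟨C', σ, Rz, h1, -, -⟩ := natSlopes baseCert baseCert_rat
  obtain ⟨S, hS, -⟩ := regularize C'
  obtain ⟨H, hH⟩ := inn_of_finite S σ (fun α => by rw [hS]; exact h1 α)
  refine ⟨H, by norm_num, by norm_num, hH.H1, 51, by norm_num, ?_, Fin 24, Fin 51, inferInstance,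
    inferInstance, 11, S, σ, hH, by simp, by simp⟩
  unfold β₀; norm_num

end NearPoly
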