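import Pool.Agent.H141R2.NPI

/-!
# From events to certificates
-/

namespace NearPoly

open KLev Finset Filter Topology

section

variable {A R : Type} [Fintype A] {k P : ℕ}

/-- every arrangement with events gives a certificate with the same slopes -/
theorem ev_cert [Finite R] (S : Ev A R k P) : ∃ C : Cert A R (k + 1) P, C.s = S.s := by
  classical
  set m : R → ℝ := fun r => (S.s (S.a r) + S.s (S.b r)) / 2 with hm
  set sg : Bool → ℝ := fun b => if b then 1 else -1 with hsg
  -- signs at the sample points
  have h1 : ∀ᶠ ε in 𝓝[>] (0:ℝ), ∀ (r : R) (b : Bool) (c : A), c ≠ S.a r → c ≠ S.b r →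
      (Fv S c r + ε * (sg b * (S.s c - m r)) ≠ 0 ∧
        (Fv S c r + ε * (sg b * (S.s c - m r)) < 0 ↔ Fv S c r < 0)) := by
    rw [eventually_all]; intro r
    rw [eventually_all]; intro b
    rw [eventually_all]; intro c
    by_cases hc : c ≠ S.a r ∧ c ≠ S.b r
    · have hF : Fv S c r ≠ 0 := by
        unfold Fv Ev.Y; exact sub_ne_zero.mpr (S.hne r c hc.1 hc.2)
      filter_upwards [ev_sign (sg b * (S.s c - m r)) hF] with ε h _ _
      exact h
    · refine Filter.Eventually.of_forall (fun ε ha hb => absurd ⟨ha, hb⟩ hc)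
  have h2 : ∀ᶠ ε in 𝓝[>] (0:ℝ), ∀ (r r' : R), S.X r < S.X r' → S.X r + ε < S.X r' - ε := by
    rw [eventually_all]; intro r
    rw [eventually_all]; intro r'
    by_cases h : S.X r < S.X r'
    · filter_upwards [ev_pos (-2) (sub_pos.mpr h)] with ε h' _
      linarith
    · exact Filter.Eventually.of_forall (fun _ h' => absurd h' h)
  obtain ⟨ε, h1, h2, hε⟩ := (h1.and (h2.and self_mem_nhdsWithin)).exists
  have hε' : (0:ℝ) < ε := hε
  have key : ∀ (r : R) (b : Bool) (c : A),
      S.s c * (S.X r + sg b * ε) + S.t c - (S.Y r + sg b * ε * m r) =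
        Fv S c r + ε * (sg b * (S.s c - m r)) := by
    intro r b c; unfold Fv; ring
  have hFa : ∀ r, Fv S (S.a r) r = 0 := by intro r; unfold Fv Ev.Y; ring
  have hFb : ∀ r, Fv S (S.b r) r = 0 := by
    intro r; unfold Fv Ev.Y; have := S.tie r; linarith
  have hma : ∀ r, 0 < S.s (S.a r) - m r := by
    intro r; have := S.hs r; simp only [hm]; linarith
  have hmb : ∀ r, S.s (S.b r) - m r < 0 := by
    intro r; have := S.hs r; simp only [hm]; linarith
  have sgn : ∀ (r : R) (b : Bool) (c : A),
      (S.s c * (S.X r + sg b * ε) + S.t c ≠ S.Y r + sg b * ε * m r) ∧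
      (S.s c * (S.X r + sg b * ε) + S.t c < S.Y r + sg b * ε * m r ↔
        (Fv S c r < 0 ∨ (c = S.a r ∧ b = false) ∨ (c = S.b r ∧ b = true))) := by
    intro r b c
    have hab := S.ab_ne r
    rw [← sub_neg, ← sub_ne_zero, key]
    by_cases hca : c = S.a r
    · subst hca
      rw [hFa, zero_add]
      have h3 := mul_pos hε' (hma r)
      cases b
      · have e : ε * (sg false * (S.s (S.a r) - m r)) = -(ε * (S.s (S.a r) - m r)) := by
          simp only [hsg]; simp; try ring
        rw [e]
        refine ⟨by linarith, ?_⟩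
        simp only [true_and, or_true, true_or, iff_true]
        linarith
      · have e : ε * (sg true * (S.s (S.a r) - m r)) = ε * (S.s (S.a r) - m r) := by
          simp only [hsg]; simp; try ring
        rw [e]
        refine ⟨by linarith, ?_⟩
        simp only [hab, lt_irrefl, false_or, false_and, or_false]
        constructor
        · intro h4; linarith
        · rintro ⟨-, h4⟩; exact absurd h4 (by decide)
    · by_cases hcb : c = S.b r
      · subst hcb
        rw [hFb, zero_add]
        have h3 := mul_neg_of_pos_of_neg hε' (hmb r)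
        cases b
        · have e : ε * (sg false * (S.s (S.b r) - m r)) = -(ε * (S.s (S.b r) - m r)) := by
            simp only [hsg]; simp; try ring
          rw [e]
          refine ⟨by linarith, ?_⟩
          simp only [hca, lt_irrefl, false_or, false_and, true_and]
          constructor
          · intro h4; linarith
          · intro h4; exact absurd h4 (by decide)
        · have e : ε * (sg true * (S.s (S.b r) - m r)) = ε * (S.s (S.b r) - m r) := by
            simp only [hsg]; simp; try ring
          rw [e]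
          refine ⟨by linarith, ?_⟩
          simp only [true_and, or_true, iff_true]
          linarith
      · have h3 := h1 r b c hca hcb
        refine ⟨h3.1, ?_⟩
        rw [h3.2]
        simp [hca, hcb]
  have hcnt0 : ∀ r, ∑ c, (if Fv S c r < 0 then 1 else 0) = k := by
    intro r
    refine Eq.trans ?_ (S.hcard r)
    apply Finset.sum_congr rfl
    intro c _
    have : (Fv S c r < 0 ↔ S.s c * S.X r + S.t c < S.s (S.a r) * S.X r + S.t (S.a r)) := by
      unfold Fv Ev.Y; rw [sub_neg]
    simp only [this]
  refine ⟨{ s := S.s, t := S.t, x := fun r b => S.X r + sg b * ε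
            y := fun r b => S.Y r + sg b * ε * m r, l := S.a, slot := S.slot
            hlt := fun r => ?_, hdisj := fun r r' h => ?_, hne := fun r b c => (sgn r b c).1
            hcard := fun r b => ?_, hl0 := fun r => ?_, hl1 := fun r => ?_
            hslot := S.hslot }, rfl⟩
  · simp only [hsg]; simp; linarith
  · have hX : S.X r ≠ S.X r' := fun h' => h (S.hX h')
    simp only [hsg]
    rcases lt_or_gt_of_ne hX with h3 | h3
    · left; have := h2 r r' h3; simp; linarith
    · right; have := h2 r' r h3; simp; linarith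
  · have h3 : ∀ c, (if S.s c * (S.X r + sg b * ε) + S.t c < S.Y r + sg b * ε * m r then 1 else 0) =
        (if Fv S c r < 0 then 1 else 0) +
        (if c = (if b then S.b r else S.a r) then 1 else 0) := by
      intro c
      have h4 := (sgn r b c).2
      have hab := S.ab_ne r
      cases b
      · by_cases hca : c = S.a r
        · subst hca
          have h5 : ¬ (Fv S (S.a r) r < 0) := by rw [hFa]; exact lt_irrefl _
          rw [if_pos (h4.mpr (Or.inr (Or.inl ⟨rfl, rfl⟩))), if_neg h5]
          simp
        · have h5 : (S.s c * (S.X r + sg false * ε) + S.t c < S.Y r + sg false * ε * m r ↔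
              Fv S c r < 0) := by
            rw [h4]; simp [hca]
          simp only [h5]
          simp [hca]
      · by_cases hcb : c = S.b r
        · subst hcb
          have h5 : ¬ (Fv S (S.b r) r < 0) := by rw [hFb]; exact lt_irrefl _
          rw [if_pos (h4.mpr (Or.inr (Or.inr ⟨rfl, rfl⟩))), if_neg h5]
          simp
        · have h5 : (S.s c * (S.X r + sg true * ε) + S.t c < S.Y r + sg true * ε * m r ↔
              Fv S c r < 0) := by
            rw [h4]; simp [hcb]
          simp only [h5]
          simp [hcb]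
    rw [Finset.sum_congr rfl (fun c _ => h3 c), Finset.sum_add_distrib, hcnt0,
      Finset.sum_ite_eq']
    simp
  · exact ((sgn r false (S.a r)).2).mpr (Or.inr (Or.inl ⟨rfl, rfl⟩))
  · have h3 := (sgn r true (S.a r))
    have hab := S.ab_ne r
    rcases lt_or_gt_of_ne h3.1 with h4 | h4
    · exfalso
      rcases h3.2.mp h4 with h5 | ⟨-, h5⟩ | ⟨h5, -⟩
      · rw [hFa] at h5; exact lt_irrefl _ h5
      · exact absurd h5 (by decide)
      · exact hab h5
    · exact h4

end

theorem HasI.has2 {N P H : ℕ} {β : ℝ} (h : HasI N P H β) :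
    ∃ E : ℕ, 1 ≤ E ∧ β * N * 5253 ≤ 2500 * E ∧ Has2 N E P H := by
  obtain ⟨hN, hP, hH, E, hE, hr, A, R, _, _, k, S, σ, hI, hA, hR⟩ := h
  obtain ⟨C, hC⟩ := ev_cert S
  have : Nonempty R := Fintype.card_pos_iff.mp (by omega)
  obtain ⟨r⟩ := this
  have hk := level_lt S r
  exact ⟨E, hE, hr, A, R, inferInstance, inferInstance, k + 1, C, σ,
    fun i => by rw [hC]; exact hI.hσ i, hI.hH, hA, hR, by omega, by omega⟩

theorem HasI.hasS {N P H : ℕ} {β : ℝ} (h : HasI N P H β) : HasS N P H β := by
  obtain ⟨E, hE, hr, h2⟩ := h.has2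
  exact ⟨h.1, h.2.1, h.2.2.1, E, hE, h2, hr⟩

theorem HasI.hasR {N P H : ℕ} {β : ℝ} (h : HasI N P H β) : HasR N P β := by
  obtain ⟨E, hE, hr, h2⟩ := h.has2
  refine ⟨h.1, h.2.1, E, hE, ?_, hr⟩
  obtain ⟨ι, R, _, _, κ, C, σ, hσ, hσ2, h3, h4, h5, h6⟩ := h2
  exact ⟨ι, R, inferInstance, inferInstance, κ, C,
    fun i => ⟨(σ i : ℚ), by rw [hσ i]; push_cast; rfl⟩, h3, h4, h5, h6⟩

end NearPoly
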