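import Pool.Agent.H131KL.Iter

/-!
# Choice of the level, final asymptotics
-/

namespace NearPoly

open KLev Finset Filter Topology

/-- `q` compositions with the block of level `s`, filled up to `m` lines -/
lemma fillS (hstep : StepStmt) (hstart : HasO 2 1 1 1 1 (2500 / 10506)) {l₀ A : ℕ}
    (hA : 150000 ≤ A) (hl : l₀ ≤ A)
    (hlev : ∀ s, Lv (ll l₀ s) (pp s) (la0 * th0 ^ mu s)) (s q m : ℕ) (hq : 1 ≤ q)
    (hq2 : q ≤ A * 64 ^ s) (hm : 2 ^ (12 * (A * 64 ^ s) * mu s * q) ≤ m) :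
    ∃ N' E' P', Has N' E' P' ∧ N' ≤ m ∧ 2500 / 10506 * th0 ^ (mu s * q) * m ≤ (E' : ℝ) := by
  obtain ⟨g, P₂, hg, hP, hI⟩ := hlev s
  obtain ⟨i, rfl⟩ : ∃ i, q = i + 1 := ⟨q - 1, by omega⟩
  have hla1 : (1:ℝ) ≤ la0 := by unfold la0; norm_num
  have hth : (0:ℝ) < th0 := by unfold th0; norm_num
  have hb : 0 ≤ la0 * th0 ^ mu s := by positivity
  obtain ⟨N, Q, T, L, h1, h2, -, -, -⟩ := iterO hstep hstart hI hb i
  have hR := h1.round.hasR
  have hl2 := ll_le hl hA s
  have hp2 := pp_le s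
  have hmu := mu_pos s
  have hW : 20 ≤ A * 64 ^ s := by
    calc 20 ≤ A * 1 := by omega
      _ ≤ A * 64 ^ s := Nat.mul_le_mul_left _ (Nat.one_le_pow _ _ (by norm_num))
  obtain ⟨N', E', P', h3, h4, h5⟩ := hR.fill hI.hasS (by positivity) hb m (by
    refine le_trans ?_ hm
    calc N * (g * 2 ^ ll l₀ s * 262650) * ((50 * P₂) ^ i) ^ 2
        ≤ (2 * (g * 2 ^ ll l₀ s * 262650) ^ i * (50 * P₂) ^ (i ^ 2)) *
          (g * 2 ^ ll l₀ s * 262650) * ((50 * P₂) ^ i) ^ 2 :=
          Nat.mul_le_mul_right _ (Nat.mul_le_mul_right _ h2)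
      _ = 2 * (g * 2 ^ ll l₀ s * 262650) ^ (i + 1) * (50 * P₂) ^ (i ^ 2 + 2 * i) := by
          rw [pow_add (50 * P₂), ← pow_mul (50 * P₂) i 2, mul_comm i 2]; ring
      _ ≤ 2 * (2 ^ ll l₀ s * 2 ^ ll l₀ s * 2 ^ 19) ^ (i + 1) * (2 ^ pp s) ^ (i ^ 2 + 2 * i) := by
          apply Nat.mul_le_mul
          · apply Nat.mul_le_mul_left
            apply Nat.pow_le_pow_left
            exact Nat.mul_le_mul (Nat.mul_le_mul_right _ hg) (by norm_num)
          · exact Nat.pow_le_pow_left hP _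
      _ = 2 ^ (1 + (2 * ll l₀ s + 19) * (i + 1) + pp s * (i ^ 2 + 2 * i)) := by
          rw [← pow_add, ← pow_add, ← pow_mul, ← pow_mul, pow_add, pow_add, pow_one]
          congr 3; ring
      _ ≤ 2 ^ (12 * (A * 64 ^ s) * mu s * (i + 1)) := by
          apply Nat.pow_le_pow_right (by norm_num)
          set W := A * 64 ^ s with hWdef
          have e1 : ll l₀ s * (i + 1) ≤ W * mu s * (i + 1) := Nat.mul_le_mul_right _ hl2
          have e2 : pp s * (i ^ 2 + 2 * i) ≤ 9 * mu s * (W * (i + 1)) := by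
            apply Nat.mul_le_mul (by omega)
            calc i ^ 2 + 2 * i ≤ (i + 1) * (i + 1) := by nlinarith
              _ ≤ W * (i + 1) := Nat.mul_le_mul_right _ hq2
          have e3 : 20 * (i + 1) ≤ W * mu s * (i + 1) := by
            apply Nat.mul_le_mul_right
            calc 20 ≤ W * 1 := by omega
              _ ≤ W * mu s := Nat.mul_le_mul_left _ hmu
          have e4 : 1 + (2 * ll l₀ s + 19) * (i + 1) = 1 + 2 * (ll l₀ s * (i + 1)) +
            19 * (i + 1) := by ring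
          have e5 : 12 * W * mu s * (i + 1) = 12 * (W * mu s * (i + 1)) := by ring
          have e6 : 9 * mu s * (W * (i + 1)) = 9 * (W * mu s * (i + 1)) := by ring
          omega)
  refine ⟨N', E', P', h3, h4, le_trans ?_ h5⟩
  apply mul_le_mul_of_nonneg_right _ (Nat.cast_nonneg m)
  rw [mul_assoc]
  apply mul_le_mul_of_nonneg_left _ (by norm_num)
  rw [← pow_succ, pow_mul]
  apply pow_le_pow_left₀ (by positivity)
  exact le_mul_of_one_le_left (by positivity) hla1

/-- choice of the level and of the number of compositions -/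
lemma select {A ℓ : ℕ} (hA : 150000 ≤ A) (h : 12 * A ≤ ℓ) :
    ∃ s q, 1 ≤ q ∧ q ≤ A * 64 ^ s ∧ 12 * (A * 64 ^ s) * mu s * q ≤ ℓ ∧
      ℓ ≤ 24 * (A * 64 ^ s) * (mu s * q) ∧ 2 ^ (3 * s ^ 2) ≤ ℓ := by
  classical
  have hex : ∃ t, ℓ < 12 * (A * 64 ^ t) * mu t := by
    refine ⟨ℓ, ?_⟩
    calc ℓ < 2 ^ ℓ := Nat.lt_two_pow_self
      _ ≤ 64 ^ ℓ := Nat.pow_le_pow_left (by norm_num) ℓ
      _ ≤ 12 * (A * 64 ^ ℓ) * mu ℓ := by
          have := mu_pos ℓ
          calc 64 ^ ℓ = 1 * (1 * 64 ^ ℓ) * 1 := by ring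
            _ ≤ 12 * (A * 64 ^ ℓ) * mu ℓ :=
              Nat.mul_le_mul (Nat.mul_le_mul (by norm_num) (Nat.mul_le_mul_right _ (by omega))) this
  have h0 : Nat.find hex ≠ 0 := by
    intro h0
    have := Nat.find_spec hex
    rw [h0] at this
    simp [mu] at this
    omega
  obtain ⟨s, hs⟩ := Nat.exists_eq_succ_of_ne_zero h0
  have h1 : 12 * (A * 64 ^ s) * mu s ≤ ℓ := by
    have := Nat.find_min hex (m := s) (by omega)
    omega
  have h2 : ℓ < 12 * (A * 64 ^ (s + 1)) * mu (s + 1) := by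
    have := Nat.find_spec hex
    rwa [hs] at this
  set D := 12 * (A * 64 ^ s) * mu s with hD
  have hDpos : 0 < D := by
    have := mu_pos s
    exact Nat.mul_pos (Nat.mul_pos (by norm_num) (Nat.mul_pos (by omega) (by positivity))) this
  have h3 : D * (ℓ / D) ≤ ℓ := Nat.mul_div_le ℓ D
  have h4 : ℓ < D * (ℓ / D + 1) := Nat.lt_mul_div_succ ℓ hDpos
  have h5 : 1 ≤ ℓ / D := (Nat.one_le_div_iff hDpos).mpr h1
  refine ⟨s, ℓ / D, h5, ?_, h3, ?_, ?_⟩
  · have h6 : 12 * (A * 64 ^ (s + 1)) * mu (s + 1) = D * (32768 * 64 ^ s) := by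
      simp only [mu]; rw [mm_eq, hD]; ring
    rw [h6] at h2
    have h7 : ℓ / D < 32768 * 64 ^ s := lt_of_mul_lt_mul_left (h3.trans_lt h2) (Nat.zero_le _)
    calc ℓ / D ≤ 32768 * 64 ^ s := h7.le
      _ ≤ A * 64 ^ s := Nat.mul_le_mul_right _ (by omega)
  · calc ℓ ≤ D * (ℓ / D + 1) := h4.le
      _ ≤ D * (2 * (ℓ / D)) := Nat.mul_le_mul_left _ (by omega)
      _ = 24 * (A * 64 ^ s) * (mu s * (ℓ / D)) := by rw [hD]; ring
  · calc 2 ^ (3 * s ^ 2) ≤ mu s := le_mu s
      _ ≤ D := Nat.le_mul_of_pos_left _ (Nat.mul_pos (by norm_num)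
          (Nat.mul_pos (by omega) (by positivity)))
      _ ≤ ℓ := h1

lemma asym (K c : ℝ) (hK : 0 ≤ K) (hc : 0 < c) : ∀ᶠ y : ℝ in atTop,
    K + 2 * (Real.exp y * Real.exp (-3 * √y)) ≤ c * (Real.exp y * Real.exp (-(29 / 10) * √y)) := by
  have h1 : Tendsto (fun y : ℝ => c * Real.exp (1 / 10 * √y)) atTop atTop := by
    apply Tendsto.const_mul_atTop hc
    apply Real.tendsto_exp_atTop.comp
    apply Tendsto.const_mul_atTop (by norm_num)
    exact Real.tendsto_sqrt_atTop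
  filter_upwards [h1.eventually_ge_atTop (K + 2), eventually_ge_atTop (9:ℝ)] with y hy hy9
  have h2 : Real.exp y * Real.exp (-3 * √y) = Real.exp (y - 3 * √y) := by
    rw [← Real.exp_add]; congr 1; ring
  have h3 : Real.exp y * Real.exp (-(29 / 10) * √y) =
      Real.exp (1 / 10 * √y) * Real.exp (y - 3 * √y) := by
    rw [← Real.exp_add, ← Real.exp_add]; congr 1; ring
  have h4 : (1:ℝ) ≤ Real.exp (y - 3 * √y) := by
    apply Real.one_le_exp
    have h5 : √y * √y = y := Real.mul_self_sqrt (by linarith)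
    have h6 : 3 ≤ √y := by
      rw [show (3:ℝ) = √9 by rw [show (9:ℝ) = 3 ^ 2 by norm_num, Real.sqrt_sq (by norm_num)]]
      exact Real.sqrt_le_sqrt hy9
    nlinarith
  rw [h2, h3]
  have h5 : (K + 2) * Real.exp (y - 3 * √y) ≤
      c * Real.exp (1 / 10 * √y) * Real.exp (y - 3 * √y) :=
    mul_le_mul_of_nonneg_right hy (by positivity)
  have h6 : K * 1 ≤ K * Real.exp (y - 3 * √y) := mul_le_mul_of_nonneg_left h4 hK
  nlinarith [h5, h6]

theorem finalE' (hstep : StepStmt) (hstart : HasO 2 1 1 1 1 (2500 / 10506)) (C : ℝ) :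
    ∀ᶠ m : ℕ in atTop, ∃ N E P, Has N E P ∧ N ≤ m ∧ ∀ x : ℝ, (m:ℝ) ≤ x → x ≤ 8 * m →
      C * m * Real.exp (Real.log x * Real.exp (-3 * √(Real.log (Real.log x)))) ≤ E := by
  obtain ⟨l₀, hl0, hlev⟩ := level hstep hstart
  obtain ⟨A, hA⟩ : ∃ A, A = l₀ + 150000 := ⟨_, rfl⟩
  have hth : (1:ℝ) < th0 := by unfold th0; norm_num
  have hlth : 0 < Real.log th0 := Real.log_pos hth
  set c := Real.log th0 / (24 * A) with hc
  have hApos : (0:ℝ) < A := by rw [hA]; positivity
  have hcpos : 0 < c := by positivity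
  set C' := max C 1 * (10506 / 2500) with hC'
  have hC1 : 1 ≤ C' := by
    rw [hC']
    have : 1 ≤ max C 1 := le_max_right _ _
    nlinarith
  have hK : 0 ≤ Real.log C' := Real.log_nonneg hC1
  have hy : Tendsto (fun m : ℕ => Real.log (Real.log m)) atTop atTop :=
    Real.tendsto_log_atTop.comp (Real.tendsto_log_atTop.comp tendsto_natCast_atTop_atTop)
  have ht : Tendsto (fun m : ℕ => Real.log m) atTop atTop :=
    Real.tendsto_log_atTop.comp tendsto_natCast_atTop_atTop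
  filter_upwards [hy.eventually (asym (Real.log C') c hK hcpos), hy.eventually_ge_atTop 50,
    ht.eventually_ge_atTop (24 * A + 10), eventually_ge_atTop 1] with m h1 h2 h3 hm1
  set t := Real.log m with ht'
  set y := Real.log t with hy'
  have hmR : (0:ℝ) < m := by exact_mod_cast hm1
  have htpos : 0 < t := by linarith
  have hexpy : Real.exp y = t := Real.exp_log htpos
  set ℓ := Nat.log 2 m with hℓ
  have h5 : 2 ^ ℓ ≤ m := Nat.pow_log_le_self 2 (by omega)
  have h6 : m < 2 ^ (ℓ + 1) := Nat.lt_pow_succ_log_self (by norm_num) m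
  have h7 : (ℓ:ℝ) * Real.log 2 ≤ t := by
    have : Real.log ((2:ℝ) ^ ℓ) ≤ Real.log m :=
      Real.log_le_log (by positivity) (by exact_mod_cast h5)
    rwa [Real.log_pow] at this
  have h8 : t ≤ ((ℓ:ℝ) + 1) * Real.log 2 := by
    have : Real.log m ≤ Real.log ((2:ℝ) ^ (ℓ + 1)) :=
      Real.log_le_log hmR (by exact_mod_cast h6.le)
    rw [Real.log_pow] at this
    push_cast at this
    exact this
  have hlog2 : Real.log 2 < 0.6931471808 := Real.log_two_lt_d9
  have hlog2' : 0.6931471803 < Real.log 2 := Real.log_two_gt_d9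
  have h9 : t ≤ ℓ := by nlinarith
  have h10 : (ℓ:ℝ) ≤ 3 / 2 * t := by nlinarith
  have h11 : 12 * A ≤ ℓ := by
    have : (12 * A : ℝ) ≤ ℓ := by linarith
    exact_mod_cast this
  obtain ⟨s, q, hq, hq2, h12, h13, h14⟩ := select (A := A) (by omega) h11
  obtain ⟨N', E', P', g1, g2, g3⟩ := fillS hstep hstart (A := A) (by omega) (by omega) hlev s q m
    hq hq2 (le_trans (Nat.pow_le_pow_right (by norm_num) h12) h5)
  refine ⟨N', E', P', g1, g2, ?_⟩
  intro x hx1 hx2
  -- bound for `64 ^ s`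
  have h15 : 3 * (s:ℝ) ^ 2 * Real.log 2 ≤ y + 1 / 2 := by
    have a1 : Real.log ((2:ℝ) ^ (3 * s ^ 2)) ≤ Real.log ℓ :=
      Real.log_le_log (by positivity) (by exact_mod_cast h14)
    rw [Real.log_pow] at a1
    push_cast at a1
    have a2 : Real.log ℓ ≤ Real.log (3 / 2 * t) := Real.log_le_log (by linarith) h10
    rw [Real.log_mul (by norm_num) htpos.ne'] at a2
    have a3 : Real.log (3 / 2) ≤ 3 / 2 - 1 := Real.log_le_sub_one_of_pos (by norm_num)
    linarith
  have hy0 : 0 ≤ y := by linarith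
  have hsy : √y * √y = y := Real.mul_self_sqrt hy0
  have h16 : 6 * (s:ℝ) * Real.log 2 ≤ 29 / 10 * √y := by
    apply (pow_le_pow_iff_left₀ (by positivity) (by positivity) two_ne_zero).mp
    have a1 : (6 * (s:ℝ) * Real.log 2) ^ 2 = 12 * Real.log 2 * (3 * (s:ℝ) ^ 2 * Real.log 2) := by
      ring
    have a2 : (29 / 10 * √y) ^ 2 = 841 / 100 * y := by
      rw [mul_pow, sq (√y), hsy]; norm_num
    rw [a1, a2]
    nlinarith
  have h17 : ((64:ℝ)) ^ s ≤ Real.exp (29 / 10 * √y) := by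
    have a1 : (64:ℝ) ^ s = Real.exp (6 * (s:ℝ) * Real.log 2) := by
      rw [show 6 * (s:ℝ) * Real.log 2 = s * Real.log (2 ^ 6) by
        rw [Real.log_pow]; push_cast; ring, ← Real.log_pow, Real.exp_log (by positivity)]
      norm_num
    rw [a1]
    exact Real.exp_le_exp.mpr h16
  -- the exponent of the ratio
  have h18 : t / (24 * A) * Real.exp (-(29 / 10) * √y) ≤ (mu s * q : ℕ) := by
    have a1 : (ℓ:ℝ) ≤ 24 * (A * 64 ^ s) * ((mu s * q : ℕ) : ℝ) := by exact_mod_cast h13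
    have a2 : t ≤ 24 * A * Real.exp (29 / 10 * √y) * ((mu s * q : ℕ) : ℝ) := by
      refine h9.trans (a1.trans ?_)
      apply mul_le_mul_of_nonneg_right _ (Nat.cast_nonneg _)
      rw [mul_assoc]
      apply mul_le_mul_of_nonneg_left _ (by norm_num)
      exact mul_le_mul_of_nonneg_left h17 hApos.le
    rw [neg_mul, Real.exp_neg, ← div_eq_mul_inv, div_div, div_le_iff₀ (by positivity)]
    linarith
  have h19 : c * (Real.exp y * Real.exp (-(29 / 10) * √y)) ≤ (mu s * q : ℕ) * Real.log th0 := by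
    have a1 := mul_le_mul_of_nonneg_right h18 hlth.le
    refine le_trans (le_of_eq ?_) a1
    rw [hexpy, hc]; ring
  have h20 : Real.exp (Real.log C' + 2 * (Real.exp y * Real.exp (-3 * √y))) ≤
      th0 ^ (mu s * q) := by
    rw [show th0 ^ (mu s * q) = Real.exp ((mu s * q : ℕ) * Real.log th0) by
      rw [← Real.log_pow, Real.exp_log (by positivity)]]
    exact Real.exp_le_exp.mpr (h1.trans h19)
  rw [Real.exp_add, Real.exp_log (by linarith), hexpy] at h20
  -- the point `x`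
  have hxpos : 0 < x := by linarith
  have h21 : Real.log x ≤ 2 * t := by
    have a1 : Real.log x ≤ Real.log (8 * m) := Real.log_le_log hxpos hx2
    rw [Real.log_mul (by norm_num) hmR.ne'] at a1
    have a2 : Real.log 8 ≤ 8 - 1 := Real.log_le_sub_one_of_pos (by norm_num)
    have a3 : (150000:ℝ) ≤ A := by rw [hA]; push_cast; linarith [Nat.cast_nonneg (α := ℝ) l₀]
    linarith
  have h22 : t ≤ Real.log x := Real.log_le_log hmR hx1
  have h23 : y ≤ Real.log (Real.log x) := Real.log_le_log htpos h22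
  have h24 : Real.exp (-3 * √(Real.log (Real.log x))) ≤ Real.exp (-3 * √y) := by
    apply Real.exp_le_exp.mpr
    have := Real.sqrt_le_sqrt h23
    linarith
  have h25 : Real.log x * Real.exp (-3 * √(Real.log (Real.log x))) ≤
      2 * (t * Real.exp (-3 * √y)) := by
    have := mul_le_mul h21 h24 (Real.exp_nonneg _) (by linarith)
    linarith
  have h26 := Real.exp_le_exp.mpr h25
  calc C * m * Real.exp (Real.log x * Real.exp (-3 * √(Real.log (Real.log x))))
      ≤ max C 1 * m * Real.exp (2 * (t * Real.exp (-3 * √y))) := by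
        apply mul_le_mul _ h26 (Real.exp_nonneg _) (by positivity)
        exact mul_le_mul_of_nonneg_right (le_max_left _ _) hmR.le
    _ = 2500 / 10506 * (C' * Real.exp (2 * (t * Real.exp (-3 * √y)))) * m := by
        rw [hC']; ring
    _ ≤ 2500 / 10506 * th0 ^ (mu s * q) * m := by
        apply mul_le_mul_of_nonneg_right _ hmR.le
        exact mul_le_mul_of_nonneg_left h20 (by norm_num)
    _ ≤ E' := g3

end NearPoly
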