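import Pool.Agent.H131KL.Pow
import Pool.Agent.H141R2.NP10

/-!
# The final estimate

For every constant `C` and all large `m` there is an arrangement certificate `Has N E P` with
`N ≤ m` lines whose number `E` of changes is at least `C * x ^ (1 + exp (-3 √(log log x)))` for
all `x ∈ [m, 8 m]`.
-/

namespace NearPoly

open KLev Finset Filter Topology

theorem finalP (C : ℝ) :
    ∀ᶠ m : ℕ in atTop, ∃ N E P, Has N E P ∧ N ≤ m ∧ ∀ x : ℝ, (m:ℝ) ≤ x → x ≤ 8 * m →
      C * x ^ (1 + Real.exp (-3 * √(Real.log (Real.log x)))) ≤ E :=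
  finalP' (fun _ _ _ _ _ _ _ _ _ _ h h2 hβ hb => h.step h2 hβ hb) HasO.start C

end NearPoly
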