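import Pool.Agent.H131KL.Round
import Pool.Agent.H131KL.Conv
import Pool.Agent.H131KL.BaseI

/-!
# Iterated composition with a fixed inner block; levels
-/

namespace NearPoly

open KLev Finset

/-- the composition step -/
def StepStmt : Prop := ∀ (N P Q T L g P₂ H : ℕ) (β b : ℝ), HasO N P Q T L β → HasI g P₂ H b →
  0 ≤ β → 0 ≤ b → HasO (N * (g * H * 262650) * P ^ 2) (50 * P * P₂)
      (Q * T ^ 3 * (100000 * H * P) ^ 15) ((100000 * H * P) ^ 5) (4 * L) (β * b)

/-- `m` compositions with the same inner block -/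
theorem iterO (hstep : StepStmt) (hstart : HasO 2 1 1 1 1 (2500 / 10506)) {g P₂ H : ℕ} {b : ℝ}
    (h : HasI g P₂ H b) (hb : 0 ≤ b) (m : ℕ) :
    ∃ N Q T L, HasO N ((50 * P₂) ^ m) Q T L (2500 / 10506 * b ^ m) ∧
      N ≤ 2 * (g * H * 262650) ^ m * (50 * P₂) ^ (m ^ 2) ∧
      Q ≤ (100000 * H) ^ (30 * m) * (50 * P₂) ^ (30 * m ^ 2) ∧
      T ≤ (100000 * H * (50 * P₂) ^ m) ^ 5 ∧ L = 4 ^ m := by
  have hP₂ : 1 ≤ P₂ := h.2.1
  have hH : 1 ≤ H := h.2.2.1
  set B := 50 * P₂ with hB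
  set G := 100000 * H with hG
  have hB1 : 1 ≤ B := by omega
  have hG1 : 1 ≤ G := by omega
  induction m with
  | zero =>
    refine ⟨2, 1, 1, 1, by simpa using hstart, by simp, by simp, ?_, by simp⟩
    simp only [pow_zero, mul_one]
    exact Nat.one_le_pow _ _ hG1
  | succ m ih =>
    obtain ⟨N, Q, T, L, h1, h2, h3, h4, h5⟩ := ih
    have h6 := hstep _ _ _ _ _ _ _ _ _ _ h1 h (by positivity) hb
    have e1 : 50 * B ^ m * P₂ = B ^ (m + 1) := by rw [pow_succ, hB]; ring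
    have e2 : 2500 / 10506 * b ^ m * b = 2500 / 10506 * b ^ (m + 1) := by rw [pow_succ]; ring
    rw [e1, e2] at h6
    refine ⟨_, _, _, _, h6, ?_, ?_, ?_, ?_⟩
    · calc N * (g * H * 262650) * (B ^ m) ^ 2
          ≤ (2 * (g * H * 262650) ^ m * B ^ (m ^ 2)) * (g * H * 262650) * (B ^ m) ^ 2 :=
            Nat.mul_le_mul_right _ (Nat.mul_le_mul_right _ h2)
        _ = 2 * (g * H * 262650) ^ (m + 1) * B ^ (m ^ 2 + 2 * m) := by
            rw [pow_add B, ← pow_mul, mul_comm m 2]; ring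
        _ ≤ 2 * (g * H * 262650) ^ (m + 1) * B ^ ((m + 1) ^ 2) := by
            apply Nat.mul_le_mul_left
            apply Nat.pow_le_pow_right hB1
            nlinarith
    · calc Q * T ^ 3 * (G * B ^ m) ^ 15
          ≤ (G ^ (30 * m) * B ^ (30 * m ^ 2)) * ((G * B ^ m) ^ 5) ^ 3 * (G * B ^ m) ^ 15 :=
            Nat.mul_le_mul_right _ (Nat.mul_le_mul h3 (Nat.pow_le_pow_left h4 3))
        _ = G ^ (30 * (m + 1)) * B ^ (30 * m ^ 2 + 30 * m) := by
            rw [pow_add B, show 30 * (m + 1) = 30 * m + 30 by ring, pow_add G,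
              show 30 * m = m * 30 by ring, pow_mul B m 30]
            ring
        _ ≤ G ^ (30 * (m + 1)) * B ^ (30 * (m + 1) ^ 2) := by
            apply Nat.mul_le_mul_left
            apply Nat.pow_le_pow_right hB1
            nlinarith
    · apply Nat.pow_le_pow_left
      apply Nat.mul_le_mul_left
      exact Nat.pow_le_pow_right hB1 (by omega)
    · rw [h5, pow_succ]; ring

lemma Inn.mono {A R : Type} [Fintype A] {k P : ℕ} {S : Ev A R k P} {σ : A → ℕ} {H H' : ℕ}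
    (h : Inn S σ H) (hH : H ≤ H') : Inn S σ H' := by
  have hHR : (H:ℝ) ≤ H' := by exact_mod_cast hH
  exact ⟨h.H1.trans hH, h.hσ, fun α => (h.hH α).trans hH, fun r => (h.X r).trans hHR,
    fun r => (h.Y r).trans hHR, fun α => (h.t α).trans hHR, fun r α => (h.F r α).trans hHR,
    fun r α ha hb => (h.g r α ha hb).trans (mul_le_mul_of_nonneg_right hHR (abs_nonneg _)),
    fun r r' hr => (h.sep r r' hr).trans (mul_le_mul_of_nonneg_right hHR (abs_nonneg _))⟩

lemma HasI.mono {N P H H' : ℕ} {β β' : ℝ} (h : HasI N P H β) (hH : H ≤ H') (hβ : β' ≤ β) :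
    HasI N P H' β' := by
  obtain ⟨hN, hP, hH1, E, hE, hr, A, R, _, _, k, S, σ, hI, hA, hR⟩ := h
  refine ⟨hN, hP, hH1.trans hH, E, hE, ?_, A, R, inferInstance, inferInstance, k, S, σ,
    hI.mono hH, hA, hR⟩
  refine le_trans ?_ hr
  apply mul_le_mul_of_nonneg_right _ (by norm_num)
  exact mul_le_mul_of_nonneg_right hβ (by positivity)

/-- an inner block with sizes given by exponents -/
def Lv (l p : ℕ) (β : ℝ) : Prop := ∃ N P, N ≤ 2 ^ l ∧ 50 * P ≤ 2 ^ p ∧ HasI N P (2 ^ l) β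

theorem Lv.step (hstep : StepStmt) (hstart : HasO 2 1 1 1 1 (2500 / 10506)) {l p : ℕ} {β : ℝ}
    (h : Lv l p β) (hβ : 0 ≤ β) (m : ℕ) (hm : 1 ≤ m) (hl : 520 ≤ l) (hp : 1 ≤ p) :
    Lv (62 * (m * l + m ^ 2 * p)) (m * p + 6) (2500 / 10506 * β ^ m) := by
  obtain ⟨g, P₂, hg, hP, hI⟩ := h
  obtain ⟨N, Q, T, L, h1, h2, h3, -, h5⟩ := iterO hstep hstart hI hβ m
  have h6 := h1.round
  have hml : m * 520 ≤ m * l := Nat.mul_le_mul_left m hl
  have hmp : 1 ≤ m ^ 2 * p := Nat.mul_pos (pow_pos (by omega) 2) (by omega)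
  refine ⟨N, (50 * P₂) ^ m, ?_, ?_, h6.mono ?_ le_rfl⟩
  · calc N ≤ 2 * (g * 2 ^ l * 262650) ^ m * (50 * P₂) ^ (m ^ 2) := h2
      _ ≤ 2 * (2 ^ l * 2 ^ l * 2 ^ 19) ^ m * (2 ^ p) ^ (m ^ 2) := by
          apply Nat.mul_le_mul
          · apply Nat.mul_le_mul_left
            apply Nat.pow_le_pow_left
            exact Nat.mul_le_mul (Nat.mul_le_mul_right _ hg) (by norm_num)
          · exact Nat.pow_le_pow_left hP _
      _ = 2 ^ (1 + (2 * l + 19) * m + p * m ^ 2) := by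
          rw [← pow_add, ← pow_add, ← pow_mul, ← pow_mul, pow_add, pow_add, pow_one]
          congr 3; ring
      _ ≤ 2 ^ (62 * (m * l + m ^ 2 * p)) := by
          apply Nat.pow_le_pow_right (by norm_num)
          have : 1 + (2 * l + 19) * m + p * m ^ 2 = 1 + 2 * (m * l) + 19 * m + m ^ 2 * p := by ring
          omega
  · calc 50 * (50 * P₂) ^ m ≤ 2 ^ 6 * (2 ^ p) ^ m :=
          Nat.mul_le_mul (by norm_num) (Nat.pow_le_pow_left hP m)
      _ = 2 ^ (m * p + 6) := by rw [← pow_mul, ← pow_add]; congr 1; ring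
  · calc 32 * L * Q ^ 2 ≤ 2 ^ 5 * 2 ^ (2 * m) *
          ((2 ^ 17 * 2 ^ l) ^ (30 * m) * (2 ^ p) ^ (30 * m ^ 2)) ^ 2 := by
          apply Nat.mul_le_mul
          · apply Nat.mul_le_mul (by norm_num)
            rw [h5, pow_mul]; norm_num
          · apply Nat.pow_le_pow_left
            refine h3.trans ?_
            apply Nat.mul_le_mul
            · apply Nat.pow_le_pow_left
              exact Nat.mul_le_mul_right _ (by norm_num)
            · exact Nat.pow_le_pow_left hP _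
      _ = 2 ^ (5 + 2 * m + (17 + l) * (30 * m) * 2 + p * (30 * m ^ 2) * 2) := by
          rw [← pow_add 2 17 l, ← pow_mul 2 (17 + l) (30 * m), ← pow_mul 2 p (30 * m ^ 2),
            ← pow_add 2 5 (2 * m), ← pow_add 2 ((17 + l) * (30 * m)) (p * (30 * m ^ 2)),
            ← pow_mul 2 ((17 + l) * (30 * m) + p * (30 * m ^ 2)) 2, ← pow_add]
          congr 1; ring
      _ ≤ 2 ^ (62 * (m * l + m ^ 2 * p)) := by
          apply Nat.pow_le_pow_right (by norm_num)
          have : 5 + 2 * m + (17 + l) * (30 * m) * 2 + p * (30 * m ^ 2) * 2 =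
            5 + 1022 * m + 60 * (m * l) + 60 * (m ^ 2 * p) := by ring
          omega

/-! ### The sequence of levels -/

/-- number of compositions at level `s` -/
def mm (s : ℕ) : ℕ := 2 ^ (6 * s + 9)

/-- total multiplicity -/
def mu : ℕ → ℕ
  | 0 => 1
  | s + 1 => mm s * mu s

/-- exponents of the numbers of events per line -/
def pp : ℕ → ℕ
  | 0 => 8
  | s + 1 => mm s * pp s + 6

/-- exponents of the sizes -/
def ll (l₀ : ℕ) : ℕ → ℕ
  | 0 => l₀
  | s + 1 => 62 * (mm s * ll l₀ s + mm s ^ 2 * pp s)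

lemma mm_pos (s : ℕ) : 512 ≤ mm s := by
  unfold mm
  calc 512 = 2 ^ 9 := by norm_num
    _ ≤ 2 ^ (6 * s + 9) := Nat.pow_le_pow_right (by norm_num) (by omega)

lemma mu_pos (s : ℕ) : 1 ≤ mu s := by
  induction s with
  | zero => simp [mu]
  | succ s ih => exact Nat.mul_pos (by have := mm_pos s; omega) ih

lemma pp_pos (s : ℕ) : 1 ≤ pp s := by
  cases s with
  | zero => simp [pp]
  | succ s => simp only [pp]; omega

lemma ll_pos {l₀ : ℕ} (h : 520 ≤ l₀) (s : ℕ) : 520 ≤ ll l₀ s := by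
  induction s with
  | zero => simpa [ll] using h
  | succ s ih =>
    simp only [ll]
    have h1 : 1 * ll l₀ s ≤ mm s * ll l₀ s :=
      Nat.mul_le_mul_right _ (by have := mm_pos s; omega)
    omega

lemma pp_le (s : ℕ) : pp s + 1 ≤ 9 * mu s := by
  induction s with
  | zero => simp [pp, mu]
  | succ s ih =>
    simp only [pp, mu]
    have h1 := mm_pos s
    have h2 : mm s * (pp s + 1) ≤ mm s * (9 * mu s) := Nat.mul_le_mul_left _ ih
    have h3 : mm s * (pp s + 1) = mm s * pp s + mm s := by ring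
    have h4 : mm s * (9 * mu s) = 9 * (mm s * mu s) := by ring
    omega

lemma mm_eq (s : ℕ) : mm s = 512 * 64 ^ s := by
  unfold mm; rw [pow_add, pow_mul]; norm_num; ring

lemma ll_le {l₀ A : ℕ} (h1 : l₀ ≤ A) (h2 : 150000 ≤ A) (s : ℕ) :
    ll l₀ s ≤ A * 64 ^ s * mu s := by
  induction s with
  | zero => simpa [ll, mu] using h1
  | succ s ih =>
    simp only [ll, mu]
    have h3 := pp_le s
    have h6 : 558 * mm s ≤ 2 * (A * 64 ^ s) := by
      rw [mm_eq]
      calc 558 * (512 * 64 ^ s) = 285696 * 64 ^ s := by ring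
        _ ≤ (2 * A) * 64 ^ s := Nat.mul_le_mul (by omega) le_rfl
        _ = 2 * (A * 64 ^ s) := by ring
    calc 62 * (mm s * ll l₀ s + mm s ^ 2 * pp s)
        ≤ 62 * (mm s * (A * 64 ^ s * mu s) + mm s ^ 2 * (9 * mu s)) := by
          apply Nat.mul_le_mul_left
          apply Nat.add_le_add (Nat.mul_le_mul_left _ ih)
          exact Nat.mul_le_mul_left _ (by omega)
      _ = (mm s * mu s) * (62 * (A * 64 ^ s) + 558 * mm s) := by ring
      _ ≤ (mm s * mu s) * (62 * (A * 64 ^ s) + 2 * (A * 64 ^ s)) := by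
          apply Nat.mul_le_mul_left; omega
      _ = A * 64 ^ (s + 1) * (mm s * mu s) := by rw [pow_succ]; ring

/-- the multiplicity grows like `64 ^ (s ^ 2 / 2)` -/
lemma le_mu (s : ℕ) : 2 ^ (3 * s ^ 2) ≤ mu s := by
  induction s with
  | zero => simp [mu]
  | succ s ih =>
    simp only [mu]
    calc 2 ^ (3 * (s + 1) ^ 2) = 2 ^ (6 * s + 3) * 2 ^ (3 * s ^ 2) := by
          rw [← pow_add]; congr 1; ring
      _ ≤ mm s * mu s := by
          apply Nat.mul_le_mul _ ih
          unfold mm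
          exact Nat.pow_le_pow_right (by norm_num) (by omega)

/-- growth base -/
noncomputable def th0 : ℝ := 129 / 128

/-- slack factor -/
noncomputable def la0 : ℝ := 301 / 300

lemma la0_pow : (1:ℝ) ≤ 2500 / 10506 * la0 ^ 511 := by
  have h1 : (373 / 300 : ℝ) ≤ la0 ^ 73 := by
    have := one_add_mul_le_pow (a := (1 / 300 : ℝ)) (by norm_num) 73
    unfold la0
    calc (373 / 300 : ℝ) = 1 + (73 : ℕ) * (1 / 300 : ℝ) := by norm_num
      _ ≤ (1 + 1 / 300) ^ 73 := this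
      _ = (301 / 300) ^ 73 := by norm_num
  have h : (4.21 : ℝ) ≤ la0 ^ 511 := by
    calc (4.21 : ℝ) ≤ (373 / 300) ^ 7 := by norm_num
      _ ≤ (la0 ^ 73) ^ 7 := pow_le_pow_left₀ (by norm_num) h1 7
      _ = la0 ^ 511 := by rw [← pow_mul]
  nlinarith

lemma level (hstep : StepStmt) (hstart : HasO 2 1 1 1 1 (2500 / 10506)) :
    ∃ l₀, 520 ≤ l₀ ∧ ∀ s, Lv (ll l₀ s) (pp s) (la0 * th0 ^ mu s) := by
  obtain ⟨H₀, h0⟩ := HasI.base
  refine ⟨H₀ + 520, by omega, ?_⟩
  intro s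
  induction s with
  | zero =>
    refine ⟨24, 4, ?_, by norm_num [pp], h0.mono ?_ ?_⟩
    · simp only [ll]
      calc 24 ≤ H₀ + 520 := by omega
        _ ≤ 2 ^ (H₀ + 520) := Nat.lt_two_pow_self.le
    · simp only [ll]
      calc H₀ ≤ H₀ + 520 := by omega
        _ ≤ 2 ^ (H₀ + 520) := Nat.lt_two_pow_self.le
    · simp only [mu, pow_one]; unfold la0 th0 β₀; norm_num
  | succ s ih =>
    have hla : (0:ℝ) ≤ la0 := by unfold la0; norm_num
    have hla1 : (1:ℝ) ≤ la0 := by unfold la0; norm_num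
    have hth : (0:ℝ) ≤ th0 := by unfold th0; norm_num
    have h1 := ih.step hstep hstart (by positivity) (mm s) (by have := mm_pos s; omega)
      (ll_pos (by omega) s) (pp_pos s)
    obtain ⟨N, P, h2, h3, h4⟩ := h1
    refine ⟨N, P, h2, h3, h4.mono le_rfl ?_⟩
    have h5 : (1:ℝ) ≤ 2500 / 10506 * la0 ^ (mm s - 1) := by
      refine la0_pow.trans ?_
      apply mul_le_mul_of_nonneg_left _ (by norm_num)
      exact pow_le_pow_right₀ hla1 (by have := mm_pos s; omega)
    have h6 : mm s = (mm s - 1) + 1 := by have := mm_pos s; omega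
    have h7 : (la0 * th0 ^ mu s) ^ mm s = la0 ^ (mm s - 1) * la0 * th0 ^ mu (s + 1) := by
      rw [mul_pow, ← pow_mul]
      congr 1
      · rw [← pow_succ, ← h6]
      · simp only [mu]; rw [mul_comm]
    rw [h7]
    calc la0 * th0 ^ mu (s + 1) = 1 * (la0 * th0 ^ mu (s + 1)) := by ring
      _ ≤ (2500 / 10506 * la0 ^ (mm s - 1)) * (la0 * th0 ^ mu (s + 1)) :=
          mul_le_mul_of_nonneg_right h5 (by positivity)
      _ = _ := by ring

end NearPoly
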