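import Pool.Agent.H131KL.Fin

/-!
# The final estimate in the form `x ^ (1 + exp (-3 √(log log x)))`
-/

namespace NearPoly

open KLev Finset Filter Topology

lemma rpow_form {x : ℝ} (hx : 0 < x) (η : ℝ) :
    x ^ (1 + η) = x * Real.exp (Real.log x * η) := by
  rw [Real.rpow_add hx, Real.rpow_one, Real.rpow_def_of_pos hx]

theorem finalP' (hstep : StepStmt) (hstart : HasO 2 1 1 1 1 (2500 / 10506)) (C : ℝ) :
    ∀ᶠ m : ℕ in atTop, ∃ N E P, Has N E P ∧ N ≤ m ∧ ∀ x : ℝ, (m:ℝ) ≤ x → x ≤ 8 * m →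
      C * x ^ (1 + Real.exp (-3 * √(Real.log (Real.log x)))) ≤ E := by
  filter_upwards [finalE' hstep hstart (8 * max C 0), eventually_ge_atTop 1] with m hm hm1
  obtain ⟨N, E, P, h1, h2, h3⟩ := hm
  refine ⟨N, E, P, h1, h2, ?_⟩
  intro x hx1 hx2
  have hm0 : (0:ℝ) < m := by exact_mod_cast hm1
  have hx : 0 < x := by linarith
  have h4 := h3 x hx1 hx2
  rw [rpow_form hx]
  have h5 : 0 ≤ max C 0 := le_max_right _ _
  calc C * (x * Real.exp (Real.log x * Real.exp (-3 * √(Real.log (Real.log x)))))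
      ≤ max C 0 * (x * Real.exp (Real.log x * Real.exp (-3 * √(Real.log (Real.log x))))) :=
        mul_le_mul_of_nonneg_right (le_max_left _ _) (by positivity)
    _ ≤ max C 0 * ((8 * m) * Real.exp (Real.log x *
          Real.exp (-3 * √(Real.log (Real.log x))))) := by
        apply mul_le_mul_of_nonneg_left _ h5
        exact mul_le_mul_of_nonneg_right hx2 (Real.exp_nonneg _)
    _ = 8 * max C 0 * m * Real.exp (Real.log x *
          Real.exp (-3 * √(Real.log (Real.log x)))) := by ring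
    _ ≤ E := h4

end NearPoly
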