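import Pool.Agent.H141R2.NPI

/-!
# Rounding the slopes of an outer block
-/

namespace NearPoly

open KLev Finset

section

variable {A R : Type} [Fintype A] {k P : ℕ}

/-- estimate for a far line after rounding the slopes and moving to the new crossing -/
lemma round_far {F F' D q d u τX τd : ℝ} (hq : 0 < q) (hD : q ≤ D) (hF : q ≤ |F|)
    (h2 : q * |d| ≤ |F| * D) (hu : |u| ≤ q / (15 * D)) (hX : |τX| ≤ q / 16)
    (hτ : |τd| ≤ q / 16) (hq1 : q ≤ 1) (hF' : F' = F - τX + (d - τd) * u) :
    |F' - F| ≤ |F| / 4 := by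
  have hD0 : 0 < D := by linarith
  have h3 : |d * u| ≤ |F| / 15 := by
    rw [abs_mul]
    calc |d| * |u| ≤ |d| * (q / (15 * D)) := mul_le_mul_of_nonneg_left hu (abs_nonneg _)
      _ = q * |d| / (15 * D) := by ring
      _ ≤ |F| * D / (15 * D) := div_le_div_of_nonneg_right h2 (by positivity)
      _ = |F| / 15 := by field_simp
  have h4 : |u| ≤ 1 / 15 := by
    refine hu.trans ?_
    rw [div_le_div_iff₀ (by positivity) (by norm_num)]
    linarith
  have h5 : |τd * u| ≤ |F| / 240 := by
    rw [abs_mul]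
    calc |τd| * |u| ≤ (q / 16) * (1 / 15) := mul_le_mul hτ h4 (abs_nonneg _) (by positivity)
      _ = q / 240 := by ring
      _ ≤ |F| / 240 := by linarith
  have e : F' - F = -τX + d * u + -(τd * u) := by rw [hF']; ring
  rw [e]
  calc |-τX + d * u + -(τd * u)| ≤ |-τX| + |d * u| + |-(τd * u)| := by
        refine (abs_add_le _ _).trans ?_
        linarith [abs_add_le (-τX) (d * u)]
    _ ≤ q / 16 + |F| / 15 + |F| / 240 := by rw [abs_neg, abs_neg]; linarith
    _ ≤ |F| / 4 := by linarith

theorem round_ev (S : Ev A R k P) {Q T L : ℕ} (hQ : 1 ≤ Q) (hL : 1 ≤ L)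
    (h : Ql S (1 / Q) (1 / T) L) :
    ∃ (S' : Ev A R k P) (σ : A → ℕ), Inn S' σ (32 * L * Q ^ 2) := by
  classical
  have hQR : (1:ℝ) ≤ Q := by exact_mod_cast hQ
  have hLR : (1:ℝ) ≤ L := by exact_mod_cast hL
  set q : ℝ := 1 / Q with hq
  have hq0 : 0 < q := by positivity
  have hq1 : q ≤ 1 := by rw [hq, div_le_one (by linarith)]; exact hQR
  have hqQ : q * Q = 1 := by rw [hq]; field_simp
  set M : ℝ := 16 * L * Q with hM
  have hM0 : 0 < M := by positivity
  have hM1 : (16:ℝ) ≤ M := by
    rw [hM]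
    have : (1:ℝ) ≤ L * Q := one_le_mul_of_one_le_of_one_le hLR hQR
    nlinarith
  have hMinv : 1 / M ≤ q / 16 := by
    rw [div_le_div_iff₀ hM0 (by norm_num)]
    have : q * M = 16 * L := by rw [hM]; linear_combination (16 * (L:ℝ)) * hqQ
    nlinarith
  have hLM : L / M = q / 16 := by
    rw [div_eq_div_iff hM0.ne' (by norm_num), hM]
    linear_combination (-(16 * (L:ℝ))) * hqQ
  set σ : A → ℕ := fun c => ⌊M * S.s c⌋₊ with hσ
  set τ : A → ℝ := fun c => S.s c - σ c / M with hτ
  have hτ0 : ∀ c, 0 ≤ τ c ∧ τ c ≤ 1 / M := by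
    intro c
    have h1 : ((σ c : ℕ) : ℝ) ≤ M * S.s c := Nat.floor_le (mul_nonneg hM0.le (h.s0 c))
    have h2 : M * S.s c < (σ c : ℕ) + 1 := Nat.lt_floor_add_one _
    simp only [hτ]
    constructor
    · rw [sub_nonneg, div_le_iff₀ hM0]; linarith
    · rw [sub_le_iff_le_add, ← add_div, le_div_iff₀ hM0]; linarith
  have hτd : ∀ c d, |τ c - τ d| ≤ 1 / M := by
    intro c d
    have h1 := hτ0 c
    have h2 := hτ0 d
    rw [abs_le]; constructor <;> linarith [h1.1, h1.2, h2.1, h2.2]
  have hτX : ∀ c d e, |(τ c - τ d) * S.X e| ≤ q / 16 := by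
    intro c d e
    rw [abs_mul, ← hLM]
    calc |τ c - τ d| * |S.X e| ≤ 1 / M * L :=
          mul_le_mul (hτd c d) (h.Xb e) (abs_nonneg _) (by positivity)
      _ = L / M := by ring
  -- the new slope differences
  set D' : R → ℝ := fun e => S.D e - (τ (S.a e) - τ (S.b e)) with hD'
  have hDpos : ∀ e, 0 < S.D e := S.D_pos
  have hD'1 : ∀ e, 15 / 16 * S.D e ≤ D' e := by
    intro e
    have h1 := (abs_le.mp (hτd (S.a e) (S.b e))).2
    have h2 := h.D e
    simp only [hD']
    linarith
  have hD'0 : ∀ e, 0 < D' e := fun e => by have := hD'1 e; have := hDpos e; linarith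
  set u : R → ℝ := fun e => (τ (S.a e) - τ (S.b e)) * S.X e / D' e with hu
  have hu1 : ∀ e, |u e| ≤ q / (15 * S.D e) := by
    intro e
    have hDe := hDpos e
    simp only [hu]
    rw [abs_div, abs_of_pos (hD'0 e), div_le_div_iff₀ (hD'0 e) (by positivity)]
    calc |(τ (S.a e) - τ (S.b e)) * S.X e| * (15 * S.D e) ≤ q / 16 * (15 * S.D e) :=
          mul_le_mul_of_nonneg_right (hτX _ _ _) (by positivity)
      _ = q * (15 / 16 * S.D e) := by ring
      _ ≤ q * D' e := mul_le_mul_of_nonneg_left (hD'1 e) hq0.le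
  have hu2 : ∀ e, |u e| ≤ 1 / 15 := by
    intro e
    refine (hu1 e).trans ?_
    have hDe := hDpos e
    rw [div_le_div_iff₀ (by positivity) (by norm_num)]
    linarith [h.D e]
  set X' : R → ℝ := fun e => S.X e + u e with hX'
  -- new heights
  set h' : A → ℝ → ℝ := fun c x => (S.s c - τ c) * x + S.t c with hh'
  have htie : ∀ e, h' (S.a e) (X' e) = h' (S.b e) (X' e) := by
    intro e
    have h1 := S.tie e
    have h2 : D' e * u e = (τ (S.a e) - τ (S.b e)) * S.X e := by
      simp only [hu]; rw [mul_div_cancel₀ _ (hD'0 e).ne']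
    simp only [hh', hX']
    have h3 : D' e = (S.s (S.a e) - τ (S.a e)) - (S.s (S.b e) - τ (S.b e)) := by
      simp only [hD', Ev.D]; ring
    rw [h3] at h2
    linear_combination h1 + h2
  have hfar : ∀ e c, c ≠ S.a e → c ≠ S.b e →
      |(h' c (X' e) - h' (S.a e) (X' e)) - Fv S c e| ≤ |Fv S c e| / 4 := by
    intro e c hca hcb
    refine round_far (D := S.D e) (q := q) (d := S.s c - S.s (S.a e)) (u := u e)
      (τX := (τ c - τ (S.a e)) * S.X e) (τd := τ c - τ (S.a e)) hq0 (h.D e) (h.g1 e c hca hcb)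
      (h.g2 e c hca hcb) (hu1 e) (hτX _ _ _) ((hτd _ _).trans hMinv) hq1 ?_
    simp only [hh', hX', Fv, Ev.Y]
    ring
  have hfar2 : ∀ e c, c ≠ S.a e → c ≠ S.b e →
      3 / 4 * q ≤ |h' c (X' e) - h' (S.a e) (X' e)| ∧
      (h' c (X' e) - h' (S.a e) (X' e) < 0 ↔ Fv S c e < 0) := by
    intro e c hca hcb
    have hF := h.g1 e c hca hcb
    have hF0 : Fv S c e ≠ 0 := by
      intro h0; rw [h0, abs_zero] at hF; linarith
    have hsg := Sg.of_near hF0 (hfar e c hca hcb)
    have h3 := hsg.abs
    refine ⟨by linarith, ?_⟩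
    exact hsg.iff (by linarith)
  have hσs : ∀ c, ((σ c : ℕ) : ℝ) = M * (S.s c - τ c) := by
    intro c; simp only [hτ]; field_simp; ring
  have hh : ∀ c e, ((σ c : ℕ) : ℝ) * (X' e / M) + S.t c = h' c (X' e) := by
    intro c e; rw [hσs]; simp only [hh']; field_simp
  have hsep : ∀ e f, e ≠ f → 13 / 15 * q ≤ |X' e - X' f| := by
    intro e f hef
    have h1 := h.w e f hef
    have h2 := h.w f e (Ne.symm hef)
    have hDe := hDpos e
    have hDf := hDpos f
    rw [abs_sub_comm (S.X f)] at h2
    set Δ := |S.X e - S.X f| with hΔ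
    have hs : ∀ g, S.D g ≤ 1 := by
      intro g; unfold Ev.D; linarith [h.s1 (S.a g), h.s0 (S.b g)]
    have h3 : |u e| ≤ Δ / 15 := by
      refine (hu1 e).trans ?_
      rw [div_le_div_iff₀ (by positivity) (by norm_num)]
      nlinarith
    have h4 : |u f| ≤ Δ / 15 := by
      refine (hu1 f).trans ?_
      rw [div_le_div_iff₀ (by positivity) (by norm_num)]
      nlinarith
    have h5 : q ≤ Δ := by
      have h6 : S.D e * Δ ≤ 1 * Δ := mul_le_mul_of_nonneg_right (hs e) (abs_nonneg _)
      linarith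
    have h7 : Δ ≤ |X' e - X' f| + (|u e| + |u f|) := by
      have e1 : S.X e - S.X f = (X' e - X' f) + (-(u e) + u f) := by simp only [hX']; ring
      rw [hΔ, e1]
      refine (abs_add_le _ _).trans ?_
      have := abs_add_le (-(u e)) (u f)
      rw [abs_neg] at this
      linarith
    linarith
  have hX'b : ∀ e, |X' e| ≤ L + 1 / 15 := by
    intro e
    simp only [hX']
    exact (abs_add_le _ _).trans (add_le_add (h.Xb e) (hu2 e))
  have hs' : ∀ c, 0 ≤ S.s c - τ c ∧ S.s c - τ c ≤ 1 := by
    intro c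
    have h1 := hσs c
    have h2 : (0:ℝ) ≤ σ c := Nat.cast_nonneg _
    rw [h1] at h2
    refine ⟨?_, by linarith [(hτ0 c).1, h.s1 c]⟩
    by_contra h3
    push Not at h3
    have := mul_neg_of_pos_of_neg hM0 h3
    linarith
  have hh'b : ∀ c e, |h' c (X' e)| ≤ 3 * L := by
    intro c e
    simp only [hh']
    refine (abs_add_le _ _).trans ?_
    have h1 : |(S.s c - τ c) * X' e| ≤ 1 * (L + 1 / 15) := by
      rw [abs_mul, abs_of_nonneg (hs' c).1]
      exact mul_le_mul (hs' c).2 (hX'b e) (abs_nonneg _) (by norm_num)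
    linarith [h.tb c]
  have hHcast : ((32 * L * Q ^ 2 : ℕ) : ℝ) = 32 * L * Q ^ 2 := by push_cast; ring
  have hQ2 : (1:ℝ) ≤ (Q:ℝ) ^ 2 := one_le_pow₀ hQR
  have hHL : 32 * (L:ℝ) ≤ 32 * L * Q ^ 2 := by nlinarith
  refine ⟨{ s := fun c => (σ c : ℝ), t := S.t, X := fun e => X' e / M, a := S.a, b := S.b
            tie := fun e => by rw [hh, hh]; exact htie e
            hs := fun e => by
              have h1 := hD'0 e
              have h2 : D' e = (S.s (S.a e) - τ (S.a e)) - (S.s (S.b e) - τ (S.b e)) := by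
                simp only [hD', Ev.D]; ring
              rw [hσs, hσs]
              apply mul_lt_mul_of_pos_left _ hM0
              linarith
            hne := fun e c hca hcb => by
              rw [hh, hh]
              intro h0
              have := (hfar2 e c hca hcb).1
              rw [h0, sub_self, abs_zero] at this
              linarith
            hcard := fun e => by
              refine Eq.trans ?_ (S.hcard e)
              apply Finset.sum_congr rfl
              intro c _
              have hiff : ((σ c : ℝ) * (X' e / M) + S.t c <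
                  (σ (S.a e) : ℝ) * (X' e / M) + S.t (S.a e)) ↔
                  (S.s c * S.X e + S.t c < S.s (S.a e) * S.X e + S.t (S.a e)) := by
                rw [hh, hh]
                by_cases hca : c = S.a e
                · subst hca; simp
                · by_cases hcb : c = S.b e
                  · subst hcb
                    rw [htie, S.tie]; simp
                  · have h1 := (hfar2 e c hca hcb).2
                    rw [sub_neg] at h1
                    rw [h1]; unfold Fv Ev.Y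
                    rw [sub_neg]
              simp only [hiff]
            hX := fun e f hef => by
              by_contra hne
              have h1 := hsep e f hne
              have h2 : X' e = X' f := by
                have := congrArg (fun z => z * M) hef
                simp only [div_mul_cancel₀ _ hM0.ne'] at this
                exact this
              rw [h2, sub_self, abs_zero] at h1
              linarith
            slot := S.slot, hslot := S.hslot }, σ, ?_⟩
  refine ⟨?_, fun _ => rfl, ?_, ?_, ?_, ?_, ?_, ?_, ?_⟩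
  · have : 0 < 32 * L * Q ^ 2 := by positivity
    omega
  · intro c
    have h1 : ((σ c : ℕ) : ℝ) ≤ ((32 * L * Q ^ 2 : ℕ) : ℝ) := by
      rw [hHcast, hσs]
      calc M * (S.s c - τ c) ≤ M * 1 := mul_le_mul_of_nonneg_left (hs' c).2 hM0.le
        _ = 16 * (L * Q) := by rw [hM]; ring
        _ ≤ 32 * (L * Q * Q) := by
            have h3 : (L:ℝ) * Q * 1 ≤ L * Q * Q := mul_le_mul_of_nonneg_left hQR (by positivity)
            have h4 : (0:ℝ) ≤ L * Q := by positivity
            linarith
        _ = 32 * L * Q ^ 2 := by ring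
    exact_mod_cast h1
  · intro e
    show |X' e / M| ≤ _
    rw [hHcast, abs_div, abs_of_pos hM0, div_le_iff₀ hM0]
    have h1 := hX'b e
    have h2 : 32 * (L:ℝ) * 16 ≤ 32 * L * Q ^ 2 * M :=
      mul_le_mul hHL hM1 (by norm_num) (by positivity)
    linarith
  · intro e
    show |(σ (S.a e) : ℝ) * (X' e / M) + S.t (S.a e)| ≤ _
    rw [hh, hHcast]
    have := hh'b (S.a e) e
    linarith
  · intro c
    show |S.t c| ≤ _
    rw [hHcast]
    have := h.tb c
    linarith
  · intro e c
    show |(σ c : ℝ) * (X' e / M) + S.t c - ((σ (S.a e) : ℝ) * (X' e / M) + S.t (S.a e))| ≤ _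
    rw [hh, hh, hHcast]
    have h1 := hh'b (S.a e) e
    have h2 := hh'b c e
    have h3 := abs_sub (h' c (X' e)) (h' (S.a e) (X' e))
    linarith
  · intro e c hca hcb
    show (1:ℝ) ≤ _ * |(σ c : ℝ) * (X' e / M) + S.t c -
      ((σ (S.a e) : ℝ) * (X' e / M) + S.t (S.a e))|
    rw [hh, hh, hHcast]
    have h1 := (hfar2 e c hca hcb).1
    have h2 : 32 * (L:ℝ) * Q ^ 2 * (3 / 4 * q) ≤
        32 * L * Q ^ 2 * |h' c (X' e) - h' (S.a e) (X' e)| :=
      mul_le_mul_of_nonneg_left h1 (by positivity)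
    have h3 : 32 * (L:ℝ) * Q ^ 2 * (3 / 4 * q) = 24 * (L * Q) := by
      linear_combination (24 * (L:ℝ) * Q) * hqQ
    have h4 : (1:ℝ) ≤ L * Q := one_le_mul_of_one_le_of_one_le hLR hQR
    linarith
  · intro e f hef
    show (1:ℝ) ≤ _ * |X' e / M - X' f / M|
    rw [hHcast, ← sub_div, abs_div, abs_of_pos hM0]
    have h1 := hsep e f hef
    rw [mul_div_assoc', le_div_iff₀ hM0, one_mul]
    have h2 : 32 * (L:ℝ) * Q ^ 2 * (13 / 15 * q) ≤ 32 * L * Q ^ 2 * |X' e - X' f| :=
      mul_le_mul_of_nonneg_left h1 (by positivity)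
    have h3 : 32 * (L:ℝ) * Q ^ 2 * (13 / 15 * q) = 416 / 15 * (L * Q) := by
      linear_combination (416 / 15 * (L:ℝ) * Q) * hqQ
    have h4 : M = 16 * (L * Q) := by rw [hM]; ring
    have h5 : (0:ℝ) ≤ L * Q := by positivity
    linarith

end

theorem HasO.round {N P Q T L : ℕ} {β : ℝ} (h : HasO N P Q T L β) :
    HasI N P (32 * L * Q ^ 2) β := by
  obtain ⟨hN, hP, hQ, hT, hL, E, hE, hr, A, R, _, _, k, S, hS, hA, hR⟩ := h
  obtain ⟨S', σ, hI⟩ := round_ev S hQ hL hS
  exact ⟨hN, hP, hI.H1, E, hE, hr, A, R, inferInstance, inferInstance, k, S', σ, hI, hA, hR⟩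

end NearPoly
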